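import Pool.Agent.P8H81.LP.Stm2

/-! Project LP, package JEN: Jensen and submultiplicativity of the fractional moment. -/

set_option autoImplicit false

open MeasureTheory ProbabilityTheory Filter Finset

namespace Pool.Agent.P8H37.LPB

open Pool.Agent.P8H81.LP

theorem Wr_pos' (N : ℕ) : ∀ (V : ℕ → (Fin 2 → ℤ) → ℝ) (x : Fin 2 → ℤ), 0 < Wr N V x := by
  induction N with
  | zero => intro V x; simp [Wr]
  | succ N ih =>
    intro V x
    rw [Wr]
    refine mul_pos (by norm_num) (Finset.sum_pos (fun e _ => mul_pos (Real.exp_pos _) (ih _ _)) ?_)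
    exact ⟨(0, true), Finset.mem_univ _⟩

theorem AA_nonneg (μ : Measure ((Fin 2 → ℤ) → ℝ)) (β θ : ℝ) (N : ℕ) : 0 ≤ AA μ β θ N := by
  unfold AA
  refine Finset.sum_nonneg (fun x _ => integral_nonneg (fun w => Real.rpow_nonneg ?_ _))
  unfold QQ
  refine mul_nonneg (by positivity) (Finset.sum_nonneg (fun σ _ => ?_))
  unfold wt
  exact (Real.exp_pos _).le

theorem jen : S_JEN := by
  intro hSUB hP hI hc μ hG β θ hβ hθ hθ1 N hN p A hA hAA hlim
  haveI := hG.prob
  haveI : IsProbabilityMeasure (PP μ) := by unfold PP; infer_instance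
  have key : ∀ m : ℕ, θ * ∫ w, LW β (m * N) w ∂(PP μ) ≤ m * Real.log A := by
    intro m
    obtain ⟨hmeas, hW2, -, hL2⟩ := hI μ hG β (m * N)
    have hLint : Integrable (LW β (m * N)) (PP μ) := hL2.integrable (by norm_num)
    have hWint : Integrable (W β (m * N) 0) (PP μ) := (hW2 0).integrable (by norm_num)
    have hWpos : ∀ w, 0 < W β (m * N) 0 w := fun w => Wr_pos' _ _ _
    have hθint : Integrable (fun w => (W β (m * N) 0 w) ^ θ) (PP μ) := by
      refine Integrable.mono' (g := fun w => 1 + W β (m * N) 0 w) ((integrable_const _).add hWint)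
        ((hmeas 0).pow_const θ).aestronglyMeasurable (Filter.Eventually.of_forall (fun w => ?_))
      rw [Real.norm_of_nonneg (Real.rpow_nonneg (hWpos w).le _)]
      rcases le_total (W β (m * N) 0 w) 1 with h | h
      · have := Real.rpow_le_one (hWpos w).le h hθ.le
        linarith [hWpos w]
      · have := Real.rpow_le_rpow_of_exponent_le h hθ1.le
        rw [Real.rpow_one] at this
        linarith
    have hc : 0 < A ^ m := pow_pos hA m
    have hpt : ∀ w, θ * LW β (m * N) w ≤
        (W β (m * N) 0 w) ^ θ / A ^ m - 1 + m * Real.log A := by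
      intro w
      have h1 : Real.log ((W β (m * N) 0 w) ^ θ) = θ * LW β (m * N) w := by
        rw [Real.log_rpow (hWpos w)]; rfl
      have hpos : 0 < (W β (m * N) 0 w) ^ θ := Real.rpow_pos_of_pos (hWpos w) _
      have h2 := Real.log_le_sub_one_of_pos (div_pos hpos hc)
      rw [Real.log_div hpos.ne' hc.ne', h1, Real.log_pow] at h2
      linarith
    have hint1 : Integrable (fun w => (W β (m * N) 0 w) ^ θ / A ^ m) (PP μ) := hθint.div_const _
    have h3 : ∫ w, θ * LW β (m * N) w ∂(PP μ) ≤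
        ∫ w, ((W β (m * N) 0 w) ^ θ / A ^ m - 1 + m * Real.log A) ∂(PP μ) := by
      refine integral_mono (hLint.const_mul θ) ?_ hpt
      exact (hint1.sub (integrable_const _)).add (integrable_const _)
    have h4 : ∫ w, ((W β (m * N) 0 w) ^ θ / A ^ m - 1 + m * Real.log A) ∂(PP μ) =
        (∫ w, (W β (m * N) 0 w) ^ θ ∂(PP μ)) / A ^ m - 1 + m * Real.log A := by
      have e1 : ∫ w, ((W β (m * N) 0 w) ^ θ / A ^ m - 1 + m * Real.log A) ∂(PP μ) =
          ∫ w, ((W β (m * N) 0 w) ^ θ / A ^ m - 1) ∂(PP μ) +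
            ∫ w, ((m : ℝ) * Real.log A) ∂(PP μ) :=
        integral_add (f := fun w => (W β (m * N) 0 w) ^ θ / A ^ m - 1)
          (hint1.sub (integrable_const _)) (integrable_const _)
      have e2 : ∫ w, ((W β (m * N) 0 w) ^ θ / A ^ m - 1) ∂(PP μ) =
          ∫ w, ((W β (m * N) 0 w) ^ θ / A ^ m) ∂(PP μ) - ∫ w, (1 : ℝ) ∂(PP μ) :=
        integral_sub hint1 (integrable_const _)
      rw [e1, e2, integral_div]
      simp
    have h5 : (∫ w, (W β (m * N) 0 w) ^ θ ∂(PP μ)) / A ^ m ≤ 1 := by
      rw [div_le_one hc]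
      exact (hSUB hP hI μ hG β θ hβ hθ hθ1 N hN m).trans
        (pow_le_pow_left₀ (AA_nonneg μ β θ N) hAA m)
    rw [h4, integral_const_mul] at h3
    linarith
  have hNpos : (0 : ℝ) < N := by exact_mod_cast hN
  have htend : Tendsto (fun m : ℕ => m * N) atTop atTop :=
    tendsto_id.atTop_mul_const' (by omega)
  refine le_of_tendsto (hlim.comp htend) ((eventually_ge_atTop 1).mono (fun m hm => ?_))
  have hmpos : (0 : ℝ) < m := by exact_mod_cast hm
  have h := key m
  simp only [Function.comp]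
  rw [Nat.cast_mul, div_le_div_iff₀ (by positivity) (by positivity)]
  nlinarith [mul_le_mul_of_nonneg_left h hNpos.le]

end Pool.Agent.P8H37.LPB
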